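import Pool.Agent.Work.MP_563097_lc.Problem

/-!
Definitions for `MP_563097_lc`: the reduction from CNF satisfiability.
-/

namespace Pool.Agent.Work.MP_563097_lc

/-- A CNF formula with clauses indexed by `J` over variables indexed by `X`, given by its signed
incidence matrix: `F j x = some true` if `x` occurs positively in clause `j`, `some false` if it
occurs negatively, `none` if it does not occur. -/
abbrev CNF (J X : Type) := J → X → Option Bool

/-- Satisfiability: some assignment makes a literal of every clause true. -/
def CNF.Satisfiable {J X : Type} (F : CNF J X) : Prop :=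
  ∃ a : X → Bool, ∀ j, ∃ x, F j x = some (a x)

/-- Vertices of the graph of a CNF formula: for each variable `x` a vertex `P x` and, for each sign
`b`, vertices `L x b` and `Q x b`; one vertex `D`; for each clause `j` a vertex `c j`. -/
inductive Vert (J X : Type)
  | P (x : X)
  | L (x : X) (b : Bool)
  | Q (x : X) (b : Bool)
  | D
  | c (j : J)
  

/-- The (directed) adjacencies of the graph of a CNF formula. -/
def arc {J X : Type} (F : CNF J X) : Vert J X → Vert J X → Prop
  | .L x _, .P y => x = y
  | .L x b, .Q y b' => x = y ∧ b = b'
  | .c _, .D => True
  | .c j, .Q x b => F j x = some b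
  | _, _ => False

/-- The graph of a CNF formula: `L x b` is adjacent to `P x` and `Q x b`; `c j` is adjacent to `D`
and to `Q x b` for each literal `(x, b)` of clause `j`. There are no other edges. -/
def graph {J X : Type} (F : CNF J X) : SimpleGraph (Vert J X) := SimpleGraph.fromRel (arc F)

/-- The padded formula: three new variables which occur in no old clause, the clause of all positive
literals, the clause of all negative literals, and for each variable `y` the clause
`y ∨ ⋁_{x ≠ y} ¬ x`. -/
def pad {m n : ℕ} (F : CNF (Fin m) (Fin n)) : CNF (Fin m ⊕ Bool ⊕ (Fin n ⊕ Fin 3)) (Fin n ⊕ Fin 3)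
  | .inl j, .inl x => F j x
  | .inl _, .inr _ => none
  | .inr (.inl b), _ => some b
  | .inr (.inr y), x => some (decide (x = y))

end Pool.Agent.Work.MP_563097_lc
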