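import Pool.Agent.Work.MP_563097_lc.Reduction

/-!
Recognising the class `C` is coNP-hard.
-/

namespace Pool.Agent.Work.MP_563097_lc

open Pool.Agent.Work TMLib

/-- Directed adjacencies on vertices given as data. -/
def arcB (ψ : TMLib.CNF) (u v : ℕ × ℕ × Bool) : Bool :=
  (decide (u.1 = 1) && decide (v.1 = 0) && decide (u.2.1 = v.2.1)) ||
  (decide (u.1 = 1) && decide (v.1 = 2) && decide (u.2.1 = v.2.1) && decide (u.2.2 = v.2.2)) ||
  (decide (u.1 = 4) && decide (v.1 = 3)) ||
  (decide (u.1 = 4) && decide (v.1 = 2) && memB (v.2.1, v.2.2) (ψ.getD u.2.1 []))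

/-- Adjacency on vertices given as data. -/
def adjB (ψ : TMLib.CNF) (u v : ℕ × ℕ × Bool) : Bool := arcB ψ u v || arcB ψ v u

theorem arcB_irrefl (ψ : TMLib.CNF) (u : ℕ × ℕ × Bool) : arcB ψ u u = false := by
  obtain ⟨a, b, c⟩ := u
  simp only [arcB]
  by_cases h1 : a = 1
  · subst h1; simp
  · by_cases h4 : a = 4
    · subst h4; simp
    · simp [h1, h4]

theorem adjB_symm (ψ : TMLib.CNF) (u v : ℕ × ℕ × Bool) : adjB ψ u v = adjB ψ v u := by
  simp [adjB, Bool.or_comm]

theorem adjB_irrefl (ψ : TMLib.CNF) (u : ℕ × ℕ × Bool) : adjB ψ u u = false := by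
  simp [adjB, arcB_irrefl]

theorem arcB_toV_aux {m n : ℕ} (ψ : TMLib.CNF) (F : MP_563097_lc.CNF (Fin m) (Fin n))
    (hF : ∀ j x b, F j x = some b ↔ memB (x.val, b) (ψ.getD j.val []) = true)
    (u v : Vert (Fin m) (Fin n)) :
    arcB ψ (toV u) (toV v) = true ↔ arc F u v := by
  cases u <;> cases v <;> simp [arcB, toV, arc, Fin.ext_iff, -List.getD_eq_getElem?_getD]
  case c.Q j x b =>
    exact (hF j x b).symm

theorem arcB_toV (φ : TMLib.CNF) (u v : Vert (Fin (padL φ).length) (Fin (nvar φ + 3))) :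
    arcB (padL φ) (toV u) (toV v) = true ↔ arc (redF φ) u v := by
  apply arcB_toV_aux
  intro j x b
  rw [redF_eq, memB_iff]
  have : (padL φ).getD j.val [] = (padL φ)[j] := by
    rw [List.getD_eq_getElem?_getD, List.getElem?_eq_getElem j.isLt]
    rfl
  rw [this]

theorem adjB_toV (φ : TMLib.CNF) (u v : Vert (Fin (padL φ).length) (Fin (nvar φ + 3))) :
    adjB (padL φ) (toV u) (toV v) = true ↔ (graph (redF φ)).Adj u v := by
  simp only [adjB, Bool.or_eq_true, arcB_toV, graph, SimpleGraph.fromRel_adj]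
  constructor
  · intro h
    refine ⟨?_, h⟩
    rintro rfl
    rw [← arcB_toV, arcB_irrefl] at h
    simp at h
  · exact fun h => h.2

/-- The list of vertices of the reduction graph. -/
def vl (φ : TMLib.CNF) : List (ℕ × ℕ × Bool) := verts (padL φ).length (nvar φ + 3)

/-- The reduction graph as an instance. -/
def redG (φ : TMLib.CNF) : GraphInst :=
  ⟨(vl φ).length,
    { Adj := fun i j => adjB (padL φ) (vl φ)[i] (vl φ)[j] = true
      symm := ⟨fun i j h => by rw [adjB_symm]; exact h⟩
      loopless := ⟨fun i h => by rw [adjB_irrefl] at h; simp at h⟩ }⟩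

/-- The isomorphism between the abstract graph and the instance. -/
noncomputable def redIso (φ : TMLib.CNF) : graph (redF φ) ≃g (redG φ).2 where
  toEquiv := vEquiv _ _
  map_rel_iff' := by
    intro u v
    show adjB (padL φ) (vl φ)[vEquiv _ _ u] (vl φ)[vEquiv _ _ v] = true ↔ _
    have h1 : (vl φ)[vEquiv _ _ u] = toV u := verts_vEquiv u
    have h2 : (vl φ)[vEquiv _ _ v] = toV v := verts_vEquiv v
    rw [h1, h2, adjB_toV]

theorem isOpenPacking_image {V W : Type*} {G : SimpleGraph V} {H : SimpleGraph W} (e : G ≃g H)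
    (S : Set V) : IsOpenPacking H (e '' S) ↔ IsOpenPacking G S := by
  have key : ∀ u v, H.neighborSet (e u) ∩ H.neighborSet (e v) = ∅ ↔
      G.neighborSet u ∩ G.neighborSet v = ∅ := by
    intro u v
    simp only [Set.eq_empty_iff_forall_notMem, Set.mem_inter_iff, SimpleGraph.mem_neighborSet]
    constructor
    · intro h w hw
      exact h (e w) ⟨e.map_adj_iff.2 hw.1, e.map_adj_iff.2 hw.2⟩
    · intro h w hw
      obtain ⟨w', rfl⟩ := e.surjective w
      exact h w' ⟨e.map_adj_iff.1 hw.1, e.map_adj_iff.1 hw.2⟩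
  constructor
  · intro h u hu v hv huv
    rw [← key]
    exact h _ ⟨u, hu, rfl⟩ _ ⟨v, hv, rfl⟩ (fun h' => huv (e.injective h'))
  · rintro h _ ⟨u, hu, rfl⟩ _ ⟨v, hv, rfl⟩ huv
    rw [key]
    exact h u hu v hv (fun h' => huv (by rw [h']))

theorem maximal_image {V W : Type*} {G : SimpleGraph V} {H : SimpleGraph W} (e : G ≃g H)
    (S : Set V) (hS : Maximal (IsOpenPacking G) S) : Maximal (IsOpenPacking H) (e '' S) := by
  refine ⟨(isOpenPacking_image e S).2 hS.1, ?_⟩
  intro T hT hST
  obtain ⟨T', rfl⟩ : ∃ T', e '' T' = T := ⟨e ⁻¹' T, Set.image_preimage_eq _ e.surjective⟩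
  have h1 := (isOpenPacking_image e T').1 hT
  have h2 : S ⊆ T' := (Set.image_subset_image_iff e.injective).1 hST
  exact Set.image_mono (hS.2 h1 h2)

theorem InC.of_iso {V W : Type*} {G : SimpleGraph V} {H : SimpleGraph W} (e : G ≃g H)
    (h : InC H) : InC G := by
  intro S T hS hT
  have := h _ _ (maximal_image e S hS) (maximal_image e T hT)
  rwa [Set.ncard_image_of_injective _ e.injective,
    Set.ncard_image_of_injective _ e.injective] at this

theorem inC_redG (φ : TMLib.CNF) : InC (redG φ).2 ↔ ¬ Sat φ := by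
  rw [← inC_redF]
  exact ⟨InC.of_iso (redIso φ), InC.of_iso (redIso φ).symm⟩

/-- The output string. -/
def redS (φ : TMLib.CNF) : List Bool :=
  (vl φ).flatMap fun u => (vl φ).map fun v => adjB (padL φ) u v

theorem adjMatrix_redG (φ : TMLib.CNF) : adjMatrix (redG φ) = redS φ := by
  have h1 : ∀ (u : ℕ × ℕ × Bool), (List.ofFn fun j : Fin (vl φ).length =>
      adjB (padL φ) u (vl φ)[j]) = (vl φ).map fun v => adjB (padL φ) u v := by
    intro u
    apply List.ext_getElem
    · simp
    · intro i h1 h2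
      simp
  have h2 : (List.ofFn fun i : Fin (vl φ).length =>
      (vl φ).map fun v => adjB (padL φ) (vl φ)[i] v) =
      (vl φ).map fun u => (vl φ).map fun v => adjB (padL φ) u v := by
    apply List.ext_getElem
    · simp
    · intro i h1 h2
      simp
  have h3 : adjMatrix (redG φ) = (List.ofFn fun i : Fin (vl φ).length =>
      List.ofFn fun j : Fin (vl φ).length => adjB (padL φ) (vl φ)[i] (vl φ)[j]).flatten := by
    simp only [adjMatrix, redG, Bool.decide_eq_true]
  rw [h3]
  simp only [h1]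
  rw [h2, redS, List.flatMap_def]

section PolyF

variable {α : Type} [DE α]

@[fun_prop]
theorem PolyF.verts {f g : α → ℕ} (hf : PolyF f) (hg : PolyF g) :
    PolyF (fun a => MP_563097_lc.verts (f a) (g a)) := by
  unfold MP_563097_lc.verts
  refine PolyF.append (PolyF.append (PolyF.append (PolyF.append (PolyF.append (PolyF.append
    ?_ ?_) ?_) ?_) ?_) (by fun_prop)) ?_
  · exact PolyF.map (l := fun a => List.range (g a)) (f := fun _ x => (0, x, false))
      (by fun_prop) (by fun_prop)
  · exact PolyF.map (l := fun a => List.range (g a)) (f := fun _ x => (1, x, true))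
      (by fun_prop) (by fun_prop)
  · exact PolyF.map (l := fun a => List.range (g a)) (f := fun _ x => (1, x, false))
      (by fun_prop) (by fun_prop)
  · exact PolyF.map (l := fun a => List.range (g a)) (f := fun _ x => (2, x, true))
      (by fun_prop) (by fun_prop)
  · exact PolyF.map (l := fun a => List.range (g a)) (f := fun _ x => (2, x, false))
      (by fun_prop) (by fun_prop)
  · exact PolyF.map (l := fun a => List.range (f a)) (f := fun _ x => (4, x, false))
      (by fun_prop) (by fun_prop)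

@[fun_prop]
theorem PolyF.arcB {f : α → TMLib.CNF} {g h : α → ℕ × ℕ × Bool} (hf : PolyF f) (hg : PolyF g)
    (hh : PolyF h) : PolyF (fun a => MP_563097_lc.arcB (f a) (g a) (h a)) := by
  unfold MP_563097_lc.arcB
  fun_prop

@[fun_prop]
theorem PolyF.adjB {f : α → TMLib.CNF} {g h : α → ℕ × ℕ × Bool} (hf : PolyF f) (hg : PolyF g)
    (hh : PolyF h) : PolyF (fun a => MP_563097_lc.adjB (f a) (g a) (h a)) := by
  unfold MP_563097_lc.adjB
  fun_prop

@[fun_prop]
theorem PolyF.vl {f : α → TMLib.CNF} (hf : PolyF f) : PolyF (fun a => MP_563097_lc.vl (f a)) := by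
  unfold MP_563097_lc.vl
  fun_prop

@[fun_prop]
theorem PolyF.redS {f : α → TMLib.CNF} (hf : PolyF f) :
    PolyF (fun a => MP_563097_lc.redS (f a)) := by
  refine PolyF.comp (f := MP_563097_lc.redS) ?_ hf
  unfold MP_563097_lc.redS
  refine PolyF.flatMap (l := fun φ : TMLib.CNF => MP_563097_lc.vl φ)
    (f := fun φ u => (MP_563097_lc.vl φ).map fun v =>
      MP_563097_lc.adjB (MP_563097_lc.padL φ) u v) (by fun_prop) ?_
  exact PolyF.map (l := fun p : TMLib.CNF × (ℕ × ℕ × Bool) => MP_563097_lc.vl p.1)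
    (f := fun p v => MP_563097_lc.adjB (MP_563097_lc.padL p.1) p.2 v) (by fun_prop) (by fun_prop)

@[fun_prop]
theorem PolyF.boolToFin {f : α → Bool} (hf : PolyF f) :
    PolyF (fun a => finTwoEquiv.symm (f a)) := by
  refine PolyF.comp (f := fun b : Bool => finTwoEquiv.symm b) ?_ hf
  refine PolyF.of_G (PolyG.refl _) ?_
  intro b
  cases b <;> rfl

@[fun_prop]
theorem PolyF.finToBool {f : α → Fin 2} (hf : PolyF f) :
    PolyF (fun a => finTwoEquiv (f a)) := by
  refine PolyF.comp (f := fun b : Fin 2 => finTwoEquiv b) ?_ hf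
  refine PolyF.of_G (PolyG.refl _) ?_
  intro b
  fin_cases b <;> rfl

end PolyF

/-- **Recognising the class `C` is coNP-hard.** -/
theorem coNPHard_inC : CoNPHard adjMatrix Set.univ {G : GraphInst | InC G.2} := by
  intro L hL
  obtain ⟨g, hg, hgL⟩ := cook_levin Lᶜ hL
  refine ⟨fun w => redG (g w), ?_, ?_⟩
  · refine PolyTime.of_PolyF (A := Bool) (B := Bool) (N := 2) (M := 2) finTwoEquiv.symm
      finTwoEquiv.symm (g := fun w => (redS (g (w.map finTwoEquiv))).map finTwoEquiv.symm) ?_ ?_
    · refine PolyF.map (l := fun w : List (Fin 2) => redS (g (w.map finTwoEquiv)))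
        (f := fun _ b => finTwoEquiv.symm b) ?_ (by fun_prop)
      refine PolyF.redS (PolyF.comp (f := g) hg ?_)
      exact PolyF.map (l := fun w : List (Fin 2) => w) (f := fun _ b => finTwoEquiv b)
        (by fun_prop) (by fun_prop)
    · intro w
      rw [adjMatrix_redG]
      simp [List.map_map, Function.comp_def]
  · intro w
    refine ⟨Set.mem_univ _, ?_⟩
    have h1 := hgL w
    rw [Set.mem_compl_iff] at h1
    rw [Set.mem_ofPred_eq, inC_redG, ← h1, not_not]

end Pool.Agent.Work.MP_563097_lc
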