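import Pool.Agent.Work.MP_563097_lc.Defs

namespace Pool.Agent.Work.MP_563097_lc

variable {J X : Type}

/-- Explicit description of sharing a neighbour. -/
def conflict (F : CNF J X) : Vert J X → Vert J X → Prop
  | .L x _, .L y _ => x = y
  | .c _, .c _ => True
  | .c j, .L x b => F j x = some b
  | .L x b, .c j => F j x = some b
  | .P x, .Q y _ => x = y
  | .Q y _, .P x => x = y
  | .D, .Q _ _ => True
  | .Q _ _, .D => True
  | .Q x _, .Q y _ => x ≠ y
  | _, _ => False

/-- The condition on the formula: any two literals on different variables lie in a common clause. -/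
def Linked (F : CNF J X) : Prop :=
  (∀ x b, ∃ j, F j x = some b) ∧
    ∀ x y, x ≠ y → ∀ b b', ∃ j, F j x = some b ∧ F j y = some b'

lemma nbr_inter (F : CNF J X) (hF : Linked F) (u v : Vert J X) (huv : u ≠ v) :
    (graph F).neighborSet u ∩ (graph F).neighborSet v = ∅ ↔ ¬ conflict F u v := by
  rw [Set.eq_empty_iff_forall_notMem]
  simp only [Set.mem_inter_iff, SimpleGraph.mem_neighborSet, graph, SimpleGraph.fromRel_adj]
  constructor
  · intro h hc
    cases u <;> cases v <;> simp only [conflict] at hc
    case P.Q x y b =>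
      subst hc
      apply h (.L x b)
      simp [arc]
    case L.L x b y b' =>
      subst hc
      apply h (.P x)
      simp [arc]
    case L.c x b j =>
      apply h (.Q x b)
      simp [arc, hc]
    case Q.P y b x =>
      subst hc
      apply h (.L x b)
      simp [arc]
    case Q.Q x b y b' =>
      obtain ⟨j, h1, h2⟩ := hF.2 x y hc b b'
      apply h (.c j)
      simp [arc, h1, h2]
    case Q.D x b =>
      obtain ⟨j, h1⟩ := hF.1 x b
      apply h (.c j)
      simp [arc, h1]
    case D.Q x b =>
      obtain ⟨j, h1⟩ := hF.1 x b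
      apply h (.c j)
      simp [arc, h1]
    case c.L j x b =>
      apply h (.Q x b)
      simp [arc, hc]
    case c.c j j' =>
      apply h .D
      simp [arc]
  · intro hc w hw
    apply hc
    obtain ⟨⟨-, h1⟩, ⟨-, h2⟩⟩ := hw
    cases u <;> cases v <;> cases w <;> simp_all [conflict, arc]

lemma conflict_symm (F : CNF J X) (u v : Vert J X) : conflict F u v ↔ conflict F v u := by
  cases u <;> cases v <;> simp [conflict, eq_comm]

lemma isOpenPacking_iff (F : CNF J X) (hF : Linked F) (S : Set (Vert J X)) :
    IsOpenPacking (graph F) S ↔ ∀ u ∈ S, ∀ v ∈ S, u ≠ v → ¬ conflict F u v := by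
  unfold IsOpenPacking
  constructor
  · intro h u hu v hv huv
    exact (nbr_inter F hF u v huv).1 (h u hu v hv huv)
  · intro h u hu v hv huv
    exact (nbr_inter F hF u v huv).2 (h u hu v hv huv)

/-- A maximal open packing meets every conflict neighbourhood of an outside vertex. -/
lemma exists_conflict (F : CNF J X) (hF : Linked F) {S : Set (Vert J X)}
    (hS : Maximal (IsOpenPacking (graph F)) S) (w : Vert J X) (hw : w ∉ S) :
    ∃ u ∈ S, conflict F u w := by
  by_contra hcon
  push Not at hcon
  have h1 := (isOpenPacking_iff F hF S).1 hS.1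
  have h2 : IsOpenPacking (graph F) (insert w S) := by
    rw [isOpenPacking_iff F hF]
    intro u hu v hv huv
    rcases Set.mem_insert_iff.1 hu with hu' | hu'
    · rcases Set.mem_insert_iff.1 hv with hv' | hv'
      · exact absurd (hu'.trans hv'.symm) huv
      · rw [conflict_symm, hu']
        exact hcon v hv'
    · rcases Set.mem_insert_iff.1 hv with hv' | hv'
      · rw [hv']
        exact hcon u hu'
      · exact h1 u hu' v hv' huv
  exact hw (hS.2 h2 (Set.subset_insert _ _) (Set.mem_insert _ _))

/-- The counting map. -/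
def cnt : Vert J X → (X ⊕ Unit) ⊕ (X ⊕ Unit)
  | .L x _ => .inl (.inl x)
  | .c _ => .inl (.inr ())
  | .P x => .inr (.inl x)
  | .D => .inr (.inr ())
  | .Q x true => .inr (.inl x)
  | .Q _ false => .inr (.inr ())

section MaxPacking

variable (F : CNF J X) (hF : Linked F) {S : Set (Vert J X)}
  (hS : Maximal (IsOpenPacking (graph F)) S)

include hF hS

lemma not_conflict_of_mem {u v : Vert J X} (hu : u ∈ S) (hv : v ∈ S) (huv : u ≠ v) :
    ¬ conflict F u v := (isOpenPacking_iff F hF S).1 hS.1 u hu v hv huv

lemma exists_L (x : X) : ∃ b, Vert.L x b ∈ S := by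
  by_contra hcon
  push Not at hcon
  have key : ∀ b, ∃ j, Vert.c j ∈ S ∧ F j x = some b := by
    intro b
    obtain ⟨u, hu, hc⟩ := exists_conflict F hF hS (.L x b) (hcon b)
    cases u with
    | P y => exact hc.elim
    | L y b' =>
      simp only [conflict] at hc
      subst hc
      exact absurd hu (hcon b')
    | Q y b' => exact hc.elim
    | D => exact hc.elim
    | c j => exact ⟨j, hu, hc⟩
  obtain ⟨j, hj, h1⟩ := key true
  obtain ⟨j', hj', h2⟩ := key false
  have : j = j' := by
    by_contra hne
    exact not_conflict_of_mem F hF hS hj hj' (by simpa using hne) trivial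
  subst this
  rw [h1] at h2
  simp at h2

lemma L_unique {x : X} {b b' : Bool} (h : Vert.L x b ∈ S) (h' : Vert.L x b' ∈ S) : b = b' := by
  by_contra hne
  exact not_conflict_of_mem F hF hS h h' (by simpa using hne) rfl

lemma c_unique {j j' : J} (h : Vert.c j ∈ S) (h' : Vert.c j' ∈ S) : j = j' := by
  by_contra hne
  exact not_conflict_of_mem F hF hS h h' (by simpa using hne) trivial

/-- The shape of the second half of a maximal open packing. -/
lemma shape : (Vert.D ∈ S ∧ (∀ x, Vert.P x ∈ S) ∧ ∀ x b, Vert.Q x b ∉ S) ∨
    ∃ x, Vert.D ∉ S ∧ (∀ b, Vert.Q x b ∈ S) ∧ Vert.P x ∉ S ∧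
      ∀ y, y ≠ x → Vert.P y ∈ S ∧ ∀ b, Vert.Q y b ∉ S := by
  by_cases hD : Vert.D ∈ S
  · left
    have hQ : ∀ x b, Vert.Q x b ∉ S := by
      intro x b h
      exact not_conflict_of_mem F hF hS hD h (by simp) trivial
    refine ⟨hD, ?_, hQ⟩
    intro x
    by_contra hx
    obtain ⟨u, hu, hc⟩ := exists_conflict F hF hS (.P x) hx
    cases u with
    | Q y b' => exact absurd hu (hQ y b')
    | P y => exact hc.elim
    | L y b' => exact hc.elim
    | D => exact hc.elim
    | c j => exact hc.elim
  · right
    obtain ⟨u, hu, hc⟩ := exists_conflict F hF hS .D hD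
    have : ∃ x b, Vert.Q x b ∈ S := by
      cases u with
      | Q y b' => exact ⟨y, b', hu⟩
      | P y => exact hc.elim
      | L y b' => exact hc.elim
      | D => exact hc.elim
      | c j => exact absurd hu (by
          intro _
          exact hc.elim)
    obtain ⟨x, b, hx⟩ := this
    have hother : ∀ y, y ≠ x → ∀ b', Vert.Q y b' ∉ S := by
      intro y hy b' h
      exact not_conflict_of_mem F hF hS h hx (by simp [hy]) hy
    have hP : Vert.P x ∉ S := by
      intro h
      exact not_conflict_of_mem F hF hS h hx (by simp) rfl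
    refine ⟨x, hD, ?_, hP, ?_⟩
    · intro b'
      by_contra hb'
      obtain ⟨u, hu, hc⟩ := exists_conflict F hF hS (.Q x b') hb'
      cases u with
      | Q y b'' =>
        simp only [conflict] at hc
        exact hother y hc b'' hu
      | P y =>
        simp only [conflict] at hc
        subst hc
        exact hP hu
      | L y b' => exact hc.elim
      | D => exact hD hu
      | c j => exact hc.elim
    · intro y hy
      refine ⟨?_, hother y hy⟩
      by_contra hPy
      obtain ⟨u, hu, hc⟩ := exists_conflict F hF hS (.P y) hPy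
      cases u with
      | Q z b' =>
        simp only [conflict] at hc
        subst hc
        exact hother _ hy b' hu
      | P y => exact hc.elim
      | L y b' => exact hc.elim
      | D => exact hc.elim
      | c j => exact hc.elim

lemma cnt_injOn : Set.InjOn cnt S := by
  intro u hu v hv huv
  rcases shape F hF hS with ⟨hD, hP, hQ⟩ | ⟨x, hD, hQ, hP, hoth⟩
  · cases u with
    | P y =>
      cases v with
      | P z => simpa [cnt] using huv
      | L z b => simp [cnt] at huv
      | Q z b => exact absurd hv (hQ z b)
      | D => simp [cnt] at huv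
      | c j => simp [cnt] at huv
    | L y b =>
      cases v with
      | P z => simp [cnt] at huv
      | L z b' =>
        have : y = z := by simpa [cnt] using huv
        subst this
        rw [L_unique F hF hS hu hv]
      | Q z b' => exact absurd hv (hQ z b')
      | D => simp [cnt] at huv
      | c j => simp [cnt] at huv
    | Q y b => exact absurd hu (hQ y b)
    | D =>
      cases v with
      | P z => simp [cnt] at huv
      | L z b' => simp [cnt] at huv
      | Q z b' => exact absurd hv (hQ z b')
      | D => rfl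
      | c j => simp [cnt] at huv
    | c j =>
      cases v with
      | P z => simp [cnt] at huv
      | L z b' => simp [cnt] at huv
      | Q z b' => exact absurd hv (hQ z b')
      | D => simp [cnt] at huv
      | c j' => rw [c_unique F hF hS hu hv]
  · have hQx : ∀ y b, Vert.Q y b ∈ S → y = x := by
      intro y b h
      by_contra hne
      exact (hoth y hne).2 b h
    have hPx : ∀ y, Vert.P y ∈ S → y ≠ x := by
      intro y h he
      subst he
      exact hP h
    cases u with
    | P y =>
      cases v with
      | P z => simpa [cnt] using huv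
      | L z b => simp [cnt] at huv
      | Q z b =>
        have h1 := hQx z b hv
        have h2 := hPx y hu
        cases b
        · simp [cnt] at huv
        · have : y = z := by simpa [cnt] using huv
          exact absurd (this.trans h1) h2
      | D => exact absurd hv hD
      | c j => simp [cnt] at huv
    | L y b =>
      cases v with
      | P z => simp [cnt] at huv
      | L z b' =>
        have : y = z := by simpa [cnt] using huv
        subst this
        rw [L_unique F hF hS hu hv]
      | Q z b' => cases b' <;> simp [cnt] at huv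
      | D => simp [cnt] at huv
      | c j => simp [cnt] at huv
    | Q y b =>
      have h1 := hQx y b hu
      cases v with
      | P z =>
        have h2 := hPx z hv
        cases b
        · simp [cnt] at huv
        · have : y = z := by simpa [cnt] using huv
          exact absurd (this.symm.trans h1) h2
      | L z b' => cases b <;> simp [cnt] at huv
      | Q z b' =>
        have h2 := hQx z b' hv
        subst h1
        subst h2
        cases b <;> cases b' <;> simp_all [cnt]
      | D => exact absurd hv hD
      | c j => cases b <;> simp [cnt] at huv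
    | D => exact absurd hu hD
    | c j =>
      cases v with
      | P z => simp [cnt] at huv
      | L z b' => simp [cnt] at huv
      | Q z b' => cases b' <;> simp [cnt] at huv
      | D => simp [cnt] at huv
      | c j' => rw [c_unique F hF hS hu hv]

lemma mem_image_right (z : X ⊕ Unit) : (Sum.inr z : (X ⊕ Unit) ⊕ (X ⊕ Unit)) ∈ cnt '' S := by
  rcases shape F hF hS with ⟨hD, hP, hQ⟩ | ⟨x, hD, hQ, hP, hoth⟩
  · rcases z with y | u
    · exact ⟨.P y, hP y, rfl⟩
    · exact ⟨.D, hD, rfl⟩
  · rcases z with y | u
    · by_cases hy : y = x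
      · subst hy
        exact ⟨.Q y true, hQ true, rfl⟩
      · exact ⟨.P y, (hoth y hy).1, rfl⟩
    · exact ⟨.Q x false, hQ false, rfl⟩

lemma mem_image_left (x : X) : (Sum.inl (Sum.inl x) : (X ⊕ Unit) ⊕ (X ⊕ Unit)) ∈ cnt '' S := by
  obtain ⟨b, hb⟩ := exists_L F hF hS x
  exact ⟨.L x b, hb, rfl⟩

lemma ncard_of_clause [Fintype X] {j : J} (hj : Vert.c j ∈ S) :
    S.ncard = 2 * (Fintype.card X + 1) := by
  classical
  rw [← (cnt_injOn F hF hS).ncard_image]
  have : cnt '' S = Set.univ := by
    rw [Set.eq_univ_iff_forall]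
    rintro ((x | u) | z)
    · exact mem_image_left F hF hS x
    · exact ⟨.c j, hj, rfl⟩
    · exact mem_image_right F hF hS z
  rw [this, Set.ncard_univ, Nat.card_eq_fintype_card]
  simp
  ring

lemma ncard_of_no_clause [Fintype X] (hj : ∀ j, Vert.c j ∉ S) :
    S.ncard = 2 * Fintype.card X + 1 := by
  classical
  rw [← (cnt_injOn F hF hS).ncard_image]
  have : cnt '' S = Set.univ \ {Sum.inl (Sum.inr ())} := by
    ext w
    simp only [Set.mem_sdiff, Set.mem_univ, true_and, Set.mem_singleton_iff]
    constructor
    · rintro ⟨u, hu, rfl⟩ h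
      cases u with
      | c j => exact hj j hu
      | Q x b => cases b <;> simp [cnt] at h
      | P x => simp [cnt] at h
      | L x b => simp [cnt] at h
      | D => simp [cnt] at h
    · intro h
      rcases w with (x | u) | z
      · exact mem_image_left F hF hS x
      · exact absurd rfl h
      · exact mem_image_right F hF hS z
  rw [this, Set.ncard_sdiff_singleton_of_mem (Set.mem_univ _), Set.ncard_univ,
    Nat.card_eq_fintype_card]
  simp
  ring

/-- A maximal open packing without clause vertices gives a satisfying assignment. -/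
lemma satisfiable_of_no_clause (hj : ∀ j, Vert.c j ∉ S) : F.Satisfiable := by
  choose a ha using exists_L F hF hS
  refine ⟨a, fun j => ?_⟩
  obtain ⟨u, hu, hc⟩ := exists_conflict F hF hS (.c j) (hj j)
  cases u with
  | c j' => exact absurd hu (hj j')
  | L x b =>
    refine ⟨x, ?_⟩
    rw [← L_unique F hF hS hu (ha x)]
    exact hc
  | Q x b => exact hc.elim
  | P x => exact hc.elim
  | D => exact hc.elim

end MaxPacking

/-- A satisfying assignment gives a maximal open packing without clause vertices. -/
lemma exists_max_no_clause (F : CNF J X) (hF : Linked F) (h : F.Satisfiable) :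
    ∃ S, Maximal (IsOpenPacking (graph F)) S ∧ ∀ j, Vert.c j ∉ S := by
  obtain ⟨a, ha⟩ := h
  refine ⟨{w | w = .D ∨ (∃ x, w = .P x) ∨ ∃ x, w = .L x (a x)}, ⟨?_, ?_⟩, ?_⟩
  · rw [isOpenPacking_iff F hF]
    rintro u (rfl | ⟨x, rfl⟩ | ⟨x, rfl⟩) v (rfl | ⟨y, rfl⟩ | ⟨y, rfl⟩) huv <;>
      simp only [conflict, not_false_eq_true, ne_eq, not_true_eq_false] at huv ⊢
    intro h
    subst h
    exact huv rfl
  · intro T hT hST w hw
    rw [isOpenPacking_iff F hF] at hT
    cases w with
    | D => left; rfl
    | P x => right; left; exact ⟨x, rfl⟩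
    | L x b =>
      right; right
      refine ⟨x, ?_⟩
      by_contra hne
      exact hT _ hw (.L x (a x)) (hST (Or.inr (Or.inr ⟨x, rfl⟩))) hne rfl
    | Q x b =>
      exfalso
      exact hT _ hw (.P x) (hST (Or.inr (Or.inl ⟨x, rfl⟩))) (by simp) rfl
    | c j =>
      exfalso
      obtain ⟨x, hx⟩ := ha j
      exact hT _ hw (.L x (a x)) (hST (Or.inr (Or.inr ⟨x, rfl⟩))) (by simp) hx
  · rintro j (h | ⟨x, h⟩ | ⟨x, h⟩) <;> simp at h

instance instFiniteVert [Finite J] [Finite X] : Finite (Vert J X) := by
  let f : Vert J X → (X ⊕ (X × Bool)) ⊕ ((X × Bool) ⊕ (Unit ⊕ J)) := fun v => match v with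
    | .P x => .inl (.inl x)
    | .L x b => .inl (.inr (x, b))
    | .Q x b => .inr (.inl (x, b))
    | .D => .inr (.inr (.inl ()))
    | .c j => .inr (.inr (.inr j))
  apply Finite.of_injective f
  intro u v h
  cases u <;> cases v <;> simp_all [f]

/-- There is a maximal open packing with a clause vertex. -/
lemma exists_max_clause [Finite J] [Finite X] (F : CNF J X) (j : J) :
    ∃ S, Maximal (IsOpenPacking (graph F)) S ∧ Vert.c j ∈ S := by
  have h0 : IsOpenPacking (graph F) {Vert.c j} := by
    intro u hu v hv huv
    exact absurd (hu.trans hv.symm) huv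
  obtain ⟨S, hS1, hS2⟩ := Finite.exists_le_maximal h0
  exact ⟨S, hS2, hS1 rfl⟩

theorem inC_iff [Finite J] [Finite X] [Nonempty J] (F : CNF J X) (hF : Linked F) :
    InC (graph F) ↔ ¬ F.Satisfiable := by
  have : Fintype X := Fintype.ofFinite X
  constructor
  · intro h hsat
    obtain ⟨S, hS, hSc⟩ := exists_max_no_clause F hF hsat
    obtain ⟨T, hT, hTc⟩ := exists_max_clause F (Classical.arbitrary J)
    have h1 := ncard_of_no_clause F hF hS hSc
    have h2 := ncard_of_clause F hF hT hTc
    have h3 := h S T hS hT
    omega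
  · intro h S T hS hT
    have key : ∀ S, Maximal (IsOpenPacking (graph F)) S → S.ncard = 2 * (Fintype.card X + 1) := by
      intro S hS
      by_cases hc : ∃ j, Vert.c j ∈ S
      · obtain ⟨j, hj⟩ := hc
        exact ncard_of_clause F hF hS hj
      · push Not at hc
        exact absurd (satisfiable_of_no_clause F hF hS hc) h
    rw [key S hS, key T hT]

lemma linked_pad {m n : ℕ} (F : CNF (Fin m) (Fin n)) : Linked (pad F) := by
  constructor
  · intro x b
    exact ⟨.inr (.inl b), rfl⟩
  · intro x y hxy b b'
    cases b <;> cases b'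
    · exact ⟨.inr (.inl false), rfl, rfl⟩
    · exact ⟨.inr (.inr y), by simp [pad, hxy], by simp [pad]⟩
    · exact ⟨.inr (.inr x), by simp [pad], by simp [pad, hxy.symm]⟩
    · exact ⟨.inr (.inl true), rfl, rfl⟩

lemma satisfiable_pad {m n : ℕ} (F : CNF (Fin m) (Fin n)) :
    (pad F).Satisfiable ↔ F.Satisfiable := by
  constructor
  · rintro ⟨a, ha⟩
    refine ⟨fun x => a (.inl x), fun j => ?_⟩
    obtain ⟨x, hx⟩ := ha (.inl j)
    rcases x with x | x
    · exact ⟨x, hx⟩
    · simp [pad] at hx
  · rintro ⟨a, ha⟩
    refine ⟨Sum.elim a (fun i => decide (i = 0)), ?_⟩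
    rintro (j | b | y)
    · obtain ⟨x, hx⟩ := ha j
      exact ⟨.inl x, hx⟩
    · cases b
      · exact ⟨.inr 1, by simp [pad]⟩
      · exact ⟨.inr 0, by simp [pad]⟩
    · by_cases hy : y = .inr 1
      · refine ⟨.inr 2, ?_⟩
        subst hy
        simp [pad]
      · refine ⟨.inr 1, ?_⟩
        simp only [pad, Sum.elim_inr]
        simp [Ne.symm hy]

theorem main {m n : ℕ} (F : CNF (Fin m) (Fin n)) :
    InC (graph (pad F)) ↔ ¬ F.Satisfiable := by
  rw [← satisfiable_pad]
  have : Nonempty (Fin m ⊕ Bool ⊕ (Fin n ⊕ Fin 3)) := ⟨.inr (.inl true)⟩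
  exact inC_iff _ (linked_pad F)

/-- The vertex type as a sum type. -/
def vertEquiv (J X : Type) : Vert J X ≃ (X ⊕ (X × Bool)) ⊕ ((X × Bool) ⊕ (Unit ⊕ J)) where
  toFun v := match v with
    | .P x => .inl (.inl x)
    | .L x b => .inl (.inr (x, b))
    | .Q x b => .inr (.inl (x, b))
    | .D => .inr (.inr (.inl ()))
    | .c j => .inr (.inr (.inr j))
  invFun v := match v with
    | .inl (.inl x) => .P x
    | .inl (.inr (x, b)) => .L x b
    | .inr (.inl (x, b)) => .Q x b
    | .inr (.inr (.inl ())) => .D
    | .inr (.inr (.inr j)) => .c j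
  left_inv v := by cases v <;> rfl
  right_inv v := by
    rcases v with (x | ⟨x, b⟩) | (⟨x, b⟩ | (u | j)) <;> rfl

lemma card_vert (m n : ℕ) :
    Nat.card (Vert (Fin m ⊕ Bool ⊕ (Fin n ⊕ Fin 3)) (Fin n ⊕ Fin 3)) = 6 * n + m + 21 := by
  rw [Nat.card_congr (vertEquiv _ _)]
  simp
  ring

end Pool.Agent.Work.MP_563097_lc
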