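import Pool.Agent.Work.MP_563097_lc.Hardness

/-!
Recognising the class `C` is in coNP.
-/

namespace Pool.Agent.Work.MP_563097_lc

open Pool.Agent.Work TMLib

/-- The number of vertices of the graph with adjacency matrix `w`. -/
def sqn (w : List Bool) : ℕ :=
  ((List.range (w.length + 1)).filter fun n => decide (n * n = w.length)).headD 0

theorem sqn_eq {w : List Bool} {n : ℕ} (h : n * n = w.length) : sqn w = n := by
  have hn : n < w.length + 1 := by
    rw [← h]
    nlinarith
  have : (List.range (w.length + 1)).filter (fun n => decide (n * n = w.length)) = [n] := by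
    have h1 : ∀ x ∈ List.range (w.length + 1), decide (x * x = w.length) = decide (x = n) := by
      intro x _
      have : x * x = w.length ↔ x = n := by
        rw [← h]
        exact Nat.mul_self_inj
      simp [this]
    rw [List.filter_congr h1]
    have h2 := List.filter_eq (l := List.range (w.length + 1)) n
    have h3 : List.count n (List.range (w.length + 1)) = 1 :=
      List.count_eq_one_of_mem List.nodup_range (List.mem_range.2 hn)
    rw [h3] at h2
    simpa using h2
  rw [sqn, this]
  rfl

/-- Matrix entries. -/
def ent (w : List Bool) (n i j : ℕ) : Bool := w.getD (i * n + j) false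

/-- Is `w` the adjacency matrix of a graph with `n` vertices? -/
def validB (w : List Bool) (n : ℕ) : Bool :=
  decide (n * n = w.length) && (List.range n).all fun i =>
    !(ent w n i i) && (List.range n).all fun j => decide (ent w n i j = ent w n j i)

/-- Do the distinct vertices `i`, `j` have a common neighbour? -/
def confB (w : List Bool) (n i j : ℕ) : Bool :=
  !((List.range n).all fun k => !(ent w n i k && ent w n j k))

/-- Is the set coded by `s` an open packing? -/
def packB (w : List Bool) (n : ℕ) (s : List Bool) : Bool :=
  (List.range n).all fun i => (List.range n).all fun j =>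
    !(s.getD i false && s.getD j false && !(decide (i = j)) && confB w n i j)

/-- Can no vertex be added to the set coded by `s`? -/
def maxB (w : List Bool) (n : ℕ) (s : List Bool) : Bool :=
  (List.range n).all fun v => s.getD v false ||
    !((List.range n).all fun i => !(s.getD i false && confB w n i v))

/-- The number of elements of the set coded by `s`. -/
def cntB (n : ℕ) (s : List Bool) : ℕ := ((List.range n).filter fun i => s.getD i false).length

/-- The verifier. -/
def verB (w : List Bool) (n : ℕ) (u : List Bool) : Bool :=
  !(validB w n) || (packB w n u && maxB w n u && packB w n (u.drop n) && maxB w n (u.drop n) &&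
    !(decide (cntB n u = cntB n (u.drop n))))

section PolyF

variable {α : Type} [DE α]

@[fun_prop]
theorem PolyF.sqn {f : α → List Bool} (hf : PolyF f) :
    PolyF (fun a => MP_563097_lc.sqn (f a)) := by
  refine PolyF.comp (f := MP_563097_lc.sqn) ?_ hf
  unfold MP_563097_lc.sqn
  refine PolyF.headD (PolyF.filter (l := fun w : List Bool => List.range (w.length + 1))
    (f := fun w n => decide (n * n = w.length)) (by fun_prop) (by fun_prop)) (by fun_prop)

@[fun_prop]
theorem PolyF.ent {w : α → List Bool} {n i j : α → ℕ} (hw : PolyF w) (hn : PolyF n)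
    (hi : PolyF i) (hj : PolyF j) :
    PolyF (fun a => MP_563097_lc.ent (w a) (n a) (i a) (j a)) := by
  unfold MP_563097_lc.ent
  fun_prop

@[fun_prop]
theorem PolyF.validB {w : α → List Bool} {n : α → ℕ} (hw : PolyF w) (hn : PolyF n) :
    PolyF (fun a => MP_563097_lc.validB (w a) (n a)) := by
  unfold MP_563097_lc.validB
  refine PolyF.and (by fun_prop) ?_
  refine PolyF.all (l := fun a => List.range (n a)) (f := fun a i =>
    !(MP_563097_lc.ent (w a) (n a) i i) && (List.range (n a)).all fun j =>
      decide (MP_563097_lc.ent (w a) (n a) i j = MP_563097_lc.ent (w a) (n a) j i))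
    (by fun_prop) ?_
  refine PolyF.and (by fun_prop) ?_
  exact PolyF.all (l := fun p : α × ℕ => List.range (n p.1)) (f := fun p j =>
      decide (MP_563097_lc.ent (w p.1) (n p.1) p.2 j = MP_563097_lc.ent (w p.1) (n p.1) j p.2))
    (by fun_prop) (by fun_prop)

@[fun_prop]
theorem PolyF.confB {w : α → List Bool} {n i j : α → ℕ} (hw : PolyF w) (hn : PolyF n)
    (hi : PolyF i) (hj : PolyF j) :
    PolyF (fun a => MP_563097_lc.confB (w a) (n a) (i a) (j a)) := by
  unfold MP_563097_lc.confB
  refine PolyF.not (PolyF.all (l := fun a => List.range (n a)) (f := fun a k =>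
    !(MP_563097_lc.ent (w a) (n a) (i a) k && MP_563097_lc.ent (w a) (n a) (j a) k))
    (by fun_prop) (by fun_prop))

@[fun_prop]
theorem PolyF.packB {w s : α → List Bool} {n : α → ℕ} (hw : PolyF w) (hn : PolyF n)
    (hs : PolyF s) : PolyF (fun a => MP_563097_lc.packB (w a) (n a) (s a)) := by
  unfold MP_563097_lc.packB
  refine PolyF.all (l := fun a => List.range (n a)) (f := fun a i =>
    (List.range (n a)).all fun j =>
    !((s a).getD i false && (s a).getD j false && !(decide (i = j)) &&
      MP_563097_lc.confB (w a) (n a) i j)) (by fun_prop) ?_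
  exact PolyF.all (l := fun p : α × ℕ => List.range (n p.1)) (f := fun p j =>
    !((s p.1).getD p.2 false && (s p.1).getD j false && !(decide (p.2 = j)) &&
      MP_563097_lc.confB (w p.1) (n p.1) p.2 j)) (by fun_prop) (by fun_prop)

@[fun_prop]
theorem PolyF.maxB {w s : α → List Bool} {n : α → ℕ} (hw : PolyF w) (hn : PolyF n)
    (hs : PolyF s) : PolyF (fun a => MP_563097_lc.maxB (w a) (n a) (s a)) := by
  unfold MP_563097_lc.maxB
  refine PolyF.all (l := fun a => List.range (n a)) (f := fun a v =>
    (s a).getD v false ||
    !((List.range (n a)).all fun i => !((s a).getD i false &&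
      MP_563097_lc.confB (w a) (n a) i v))) (by fun_prop) ?_
  refine PolyF.or (by fun_prop) (PolyF.not ?_)
  exact PolyF.all (l := fun p : α × ℕ => List.range (n p.1)) (f := fun p i =>
    !((s p.1).getD i false && MP_563097_lc.confB (w p.1) (n p.1) i p.2))
    (by fun_prop) (by fun_prop)

@[fun_prop]
theorem PolyF.cntB {s : α → List Bool} {n : α → ℕ} (hn : PolyF n)
    (hs : PolyF s) : PolyF (fun a => MP_563097_lc.cntB (n a) (s a)) := by
  unfold MP_563097_lc.cntB
  exact PolyF.length (PolyF.filter (l := fun a => List.range (n a))
    (f := fun a i => (s a).getD i false) (by fun_prop) (by fun_prop))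

@[fun_prop]
theorem PolyF.verB {w u : α → List Bool} {n : α → ℕ} (hw : PolyF w) (hn : PolyF n)
    (hu : PolyF u) : PolyF (fun a => MP_563097_lc.verB (w a) (n a) (u a)) := by
  unfold MP_563097_lc.verB
  fun_prop

end PolyF

end Pool.Agent.Work.MP_563097_lc
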