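import Mathlib

/-!
The recognition problem of `MP_563097_lc`: open packings, the class `C` of graphs whose maximal open
packings all have the same size, and graphs encoded by their adjacency matrices.
-/

namespace Pool.Agent.Work.MP_563097_lc

/-- `S` is an open packing of `G`: distinct vertices of `S` have disjoint open neighbourhoods. -/
def IsOpenPacking {V : Type*} (G : SimpleGraph V) (S : Set V) : Prop :=
  ∀ u ∈ S, ∀ v ∈ S, u ≠ v → G.neighborSet u ∩ G.neighborSet v = ∅

/-- The class `C`: all inclusion-maximal open packings of `G` have the same cardinality. -/
def InC {V : Type*} (G : SimpleGraph V) : Prop :=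
  ∀ S T : Set V, Maximal (IsOpenPacking G) S → Maximal (IsOpenPacking G) T → S.ncard = T.ncard

/-- A graph instance: a number `n` of vertices and a simple graph on `Fin n`. -/
abbrev GraphInst := Σ n : ℕ, SimpleGraph (Fin n)

open Classical in
/-- The adjacency matrix of a graph, row after row, as a string of `n * n` bits. -/
noncomputable def adjMatrix (G : GraphInst) : List Bool :=
  (List.ofFn fun i : Fin G.1 => List.ofFn fun j : Fin G.1 => decide (G.2.Adj i j)).flatten

/-- The language of the class `C`: the adjacency matrices of the graphs in `C`. -/
def langC : Set (List Bool) := {w | ∃ G : GraphInst, adjMatrix G = w ∧ InC G.2}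

end Pool.Agent.Work.MP_563097_lc
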