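import Pool.Agent.Work.MP_563097_lc.Main
import Pool.Agent.Work.TMLib.CookLevin
import Pool.Agent.Work.TMLib.FP

/-!
The reduction from satisfiability of CNF formulas (as lists of clauses) to the recognition of the
class `C`, as a polynomial-time computable function.
-/

namespace Pool.Agent.Work.MP_563097_lc

open Pool.Agent.Work TMLib

/-- A strict upper bound for the variables of a formula. -/
def nvar (φ : TMLib.CNF) : ℕ := (φ.map fun c => (c.map fun l => l.1 + 1).sum).sum

/-- Boolean membership test for literals. -/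
def memB (l : ℕ × Bool) (c : List (ℕ × Bool)) : Bool :=
  !(c.all fun l' => !(decide (l'.1 = l.1) && decide (l'.2 = l.2)))

theorem memB_iff (l : ℕ × Bool) (c : List (ℕ × Bool)) : memB l c = true ↔ l ∈ c := by
  simp only [memB, Bool.not_eq_true', List.all_eq_false, Bool.not_eq_false, Bool.not_eq_true]
  constructor
  · rintro ⟨l', h1, h2⟩
    simp only [Bool.and_eq_true, decide_eq_true_eq] at h2
    have : l' = l := Prod.ext h2.1 h2.2
    rwa [← this]
  · intro h
    exact ⟨l, h, by simp⟩

/-- No complementary literals. -/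
def consB (c : List (ℕ × Bool)) : Bool := c.all fun l => !(memB (l.1, !l.2) c)

theorem consB_iff (c : List (ℕ × Bool)) : consB c = true ↔ ∀ l ∈ c, (l.1, !l.2) ∉ c := by
  simp only [consB, List.all_eq_true, Bool.not_eq_true', ← Bool.not_eq_true, memB_iff]

/-- The padded formula, in variables `< nvar φ + 3`. -/
def padL (φ : TMLib.CNF) : TMLib.CNF :=
  φ.filter consB ++ (((List.range (nvar φ + 3)).map fun x => (x, true)) ::
    ((List.range (nvar φ + 3)).map fun x => (x, false)) ::
    ((List.range (nvar φ + 3)).map fun y => (List.range (nvar φ + 3)).map fun x =>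
      (x, decide (x = y))))

section PolyF

variable {α : Type} [DE α]

@[fun_prop]
theorem PolyF.sum' {l : α → List ℕ} (hl : PolyF l) : PolyF (fun a => (l a).sum) := PolyF.sum hl

@[fun_prop]
theorem PolyF.nvar {f : α → TMLib.CNF} (hf : PolyF f) :
    PolyF (fun a => MP_563097_lc.nvar (f a)) := by
  refine PolyF.comp (f := MP_563097_lc.nvar) ?_ hf
  unfold MP_563097_lc.nvar
  refine PolyF.sum (PolyF.map (l := fun φ : TMLib.CNF => φ)
    (f := fun _ c => (c.map fun l => l.1 + 1).sum) (by fun_prop) (PolyF.sum ?_))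
  exact PolyF.map (l := fun p : TMLib.CNF × List (ℕ × Bool) => p.2) (f := fun _ l => l.1 + 1)
    (by fun_prop) (by fun_prop)

@[fun_prop]
theorem PolyF.memB {f : α → ℕ × Bool} {g : α → List (ℕ × Bool)} (hf : PolyF f) (hg : PolyF g) :
    PolyF (fun a => MP_563097_lc.memB (f a) (g a)) := by
  refine PolyF.comp (f := fun p : (ℕ × Bool) × List (ℕ × Bool) => MP_563097_lc.memB p.1 p.2)
    (g := fun a => (f a, g a)) ?_ (by fun_prop)
  unfold MP_563097_lc.memB
  refine PolyF.not (PolyF.all (l := fun p : (ℕ × Bool) × List (ℕ × Bool) => p.2)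
    (f := fun p l' => !(decide (l'.1 = p.1.1) && decide (l'.2 = p.1.2))) (by fun_prop)
    (by fun_prop))

@[fun_prop]
theorem PolyF.consB {g : α → List (ℕ × Bool)} (hg : PolyF g) :
    PolyF (fun a => MP_563097_lc.consB (g a)) := by
  refine PolyF.comp (f := MP_563097_lc.consB) ?_ hg
  unfold MP_563097_lc.consB
  exact PolyF.all (l := fun c : List (ℕ × Bool) => c)
    (f := fun c l => !(MP_563097_lc.memB (l.1, !l.2) c)) (by fun_prop) (by fun_prop)

@[fun_prop]
theorem PolyF.padL {f : α → TMLib.CNF} (hf : PolyF f) :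
    PolyF (fun a => MP_563097_lc.padL (f a)) := by
  refine PolyF.comp (f := MP_563097_lc.padL) ?_ hf
  unfold MP_563097_lc.padL
  refine PolyF.append ?_ (PolyF.cons ?_ (PolyF.cons ?_ ?_))
  · exact PolyF.filter (l := fun φ : TMLib.CNF => φ)
      (f := fun _ c => MP_563097_lc.consB c) (by fun_prop) (by fun_prop)
  · exact PolyF.map (l := fun φ : TMLib.CNF => List.range (MP_563097_lc.nvar φ + 3))
      (f := fun _ x => (x, true)) (by fun_prop) (by fun_prop)
  · exact PolyF.map (l := fun φ : TMLib.CNF => List.range (MP_563097_lc.nvar φ + 3))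
      (f := fun _ x => (x, false)) (by fun_prop) (by fun_prop)
  · refine PolyF.map (l := fun φ : TMLib.CNF => List.range (MP_563097_lc.nvar φ + 3))
      (f := fun φ y => (List.range (MP_563097_lc.nvar φ + 3)).map fun x => (x, decide (x = y)))
      (by fun_prop) ?_
    exact PolyF.map (l := fun p : TMLib.CNF × ℕ => List.range (MP_563097_lc.nvar p.1 + 3))
      (f := fun p x => (x, decide (x = p.2))) (by fun_prop) (by fun_prop)

end PolyF

/-- The signed incidence matrix of a list of clauses. -/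
def toF (ψ : TMLib.CNF) (N : ℕ) : MP_563097_lc.CNF (Fin ψ.length) (Fin N) := fun j x =>
  if memB (x.val, true) ψ[j] = true then some true
  else if memB (x.val, false) ψ[j] = true then some false else none

theorem toF_eq {ψ : TMLib.CNF} {N : ℕ} {j : Fin ψ.length} (hc : consB ψ[j] = true) (x : Fin N)
    (b : Bool) : toF ψ N j x = some b ↔ (x.val, b) ∈ ψ[j] := by
  rw [consB_iff] at hc
  simp only [toF, memB_iff]
  generalize ψ[j] = c at *
  by_cases h1 : (x.val, true) ∈ c
  · rw [if_pos h1]
    cases b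
    · have := hc _ h1
      simp only [Bool.not_true] at this
      simp [this]
    · simp [h1]
  · rw [if_neg h1]
    by_cases h2 : (x.val, false) ∈ c
    · rw [if_pos h2]
      cases b
      · simp [h2]
      · simp [h1]
    · rw [if_neg h2]
      cases b
      · simp [h2]
      · simp [h1]

theorem consB_padL (φ : TMLib.CNF) : ∀ c ∈ padL φ, consB c = true := by
  intro c hc
  simp only [padL, List.mem_append, List.mem_filter, List.mem_cons, List.mem_map] at hc
  rcases hc with ⟨-, h⟩ | rfl | rfl | ⟨y, -, rfl⟩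
  · exact h
  · rw [consB_iff]
    intro l hl
    rw [List.mem_map] at hl ⊢
    obtain ⟨x, -, rfl⟩ := hl
    rintro ⟨x', -, h⟩
    simp at h
  · rw [consB_iff]
    intro l hl
    rw [List.mem_map] at hl ⊢
    obtain ⟨x, -, rfl⟩ := hl
    rintro ⟨x', -, h⟩
    simp at h
  · rw [consB_iff]
    intro l hl
    rw [List.mem_map] at hl ⊢
    obtain ⟨x, -, rfl⟩ := hl
    rintro ⟨x', -, h⟩
    simp only [Prod.mk.injEq] at h
    obtain ⟨rfl, h⟩ := h
    simp at h

/-- The reduction formula in matrix form. -/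
def redF (φ : TMLib.CNF) : MP_563097_lc.CNF (Fin (padL φ).length) (Fin (nvar φ + 3)) :=
  toF (padL φ) (nvar φ + 3)

theorem redF_eq (φ : TMLib.CNF) (j : Fin (padL φ).length) (x : Fin (nvar φ + 3)) (b : Bool) :
    redF φ j x = some b ↔ (x.val, b) ∈ (padL φ)[j] :=
  toF_eq (consB_padL φ _ (List.getElem_mem _)) x b

theorem exists_index {φ : TMLib.CNF} {c : List (ℕ × Bool)} (hc : c ∈ padL φ) :
    ∃ j : Fin (padL φ).length, (padL φ)[j] = c := by
  obtain ⟨j, hj, h⟩ := List.getElem_of_mem hc
  exact ⟨⟨j, hj⟩, h⟩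

theorem mem_pos (φ : TMLib.CNF) : ((List.range (nvar φ + 3)).map fun x => (x, true)) ∈ padL φ := by
  simp [padL]

theorem mem_neg (φ : TMLib.CNF) :
    ((List.range (nvar φ + 3)).map fun x => (x, false)) ∈ padL φ := by
  simp [padL]

theorem mem_one (φ : TMLib.CNF) {y : ℕ} (hy : y < nvar φ + 3) :
    ((List.range (nvar φ + 3)).map fun x => (x, decide (x = y))) ∈ padL φ := by
  simp only [padL, List.mem_append, List.mem_cons, List.mem_map]
  right; right; right
  exact ⟨y, List.mem_range.2 hy, rfl⟩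

theorem linked_redF (φ : TMLib.CNF) : Linked (redF φ) := by
  constructor
  · intro x b
    cases b
    · obtain ⟨j, hj⟩ := exists_index (mem_neg φ)
      refine ⟨j, ?_⟩
      rw [redF_eq, hj, List.mem_map]
      exact ⟨x, List.mem_range.2 x.isLt, rfl⟩
    · obtain ⟨j, hj⟩ := exists_index (mem_pos φ)
      refine ⟨j, ?_⟩
      rw [redF_eq, hj, List.mem_map]
      exact ⟨x, List.mem_range.2 x.isLt, rfl⟩
  · intro x y hxy b b'
    have hne : x.val ≠ y.val := fun h => hxy (Fin.ext h)
    cases b <;> cases b'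
    · obtain ⟨j, hj⟩ := exists_index (mem_neg φ)
      refine ⟨j, ?_, ?_⟩
      · rw [redF_eq, hj, List.mem_map]
        exact ⟨x, List.mem_range.2 x.isLt, rfl⟩
      · rw [redF_eq, hj, List.mem_map]
        exact ⟨y, List.mem_range.2 y.isLt, rfl⟩
    · obtain ⟨j, hj⟩ := exists_index (mem_one φ y.isLt)
      refine ⟨j, ?_, ?_⟩
      · rw [redF_eq, hj, List.mem_map]
        exact ⟨x, List.mem_range.2 x.isLt, by simp [hne]⟩
      · rw [redF_eq, hj, List.mem_map]
        exact ⟨y, List.mem_range.2 y.isLt, by simp⟩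
    · obtain ⟨j, hj⟩ := exists_index (mem_one φ x.isLt)
      refine ⟨j, ?_, ?_⟩
      · rw [redF_eq, hj, List.mem_map]
        exact ⟨x, List.mem_range.2 x.isLt, by simp⟩
      · rw [redF_eq, hj, List.mem_map]
        exact ⟨y, List.mem_range.2 y.isLt, by simp [hne.symm]⟩
    · obtain ⟨j, hj⟩ := exists_index (mem_pos φ)
      refine ⟨j, ?_, ?_⟩
      · rw [redF_eq, hj, List.mem_map]
        exact ⟨x, List.mem_range.2 x.isLt, rfl⟩
      · rw [redF_eq, hj, List.mem_map]
        exact ⟨y, List.mem_range.2 y.isLt, rfl⟩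

theorem lt_nvar {φ : TMLib.CNF} {c : List (ℕ × Bool)} (hc : c ∈ φ) {l : ℕ × Bool} (hl : l ∈ c) :
    l.1 < nvar φ := by
  have h1 : l.1 + 1 ≤ (c.map fun l => l.1 + 1).sum :=
    List.le_sum_of_mem (List.mem_map.2 ⟨l, hl, rfl⟩)
  have h2 : (c.map fun l => l.1 + 1).sum ≤ nvar φ :=
    List.le_sum_of_mem (List.mem_map.2 ⟨c, hc, rfl⟩)
  omega

theorem redF_satisfiable (φ : TMLib.CNF) : (redF φ).Satisfiable ↔ Sat φ := by
  constructor
  · rintro ⟨a, ha⟩
    refine ⟨fun n => if h : n < nvar φ + 3 then a ⟨n, h⟩ else false, fun c hc => ?_⟩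
    by_cases hcons : consB c = true
    · obtain ⟨j, hj⟩ := exists_index (φ := φ) (c := c) (by
        simp only [padL, List.mem_append, List.mem_filter]
        exact Or.inl ⟨hc, hcons⟩)
      obtain ⟨x, hx⟩ := ha j
      rw [redF_eq, hj] at hx
      refine ⟨_, hx, ?_⟩
      simp
    · rw [consB_iff] at hcons
      push Not at hcons
      obtain ⟨l, hl, hl'⟩ := hcons
      set v := (if h : l.1 < nvar φ + 3 then a ⟨l.1, h⟩ else false) with hv
      by_cases h : v = l.2
      · exact ⟨l, hl, h⟩
      · refine ⟨_, hl', ?_⟩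
        show v = !l.2
        cases h1 : v <;> cases h2 : l.2 <;> simp_all
  · rintro ⟨v, hv⟩
    refine ⟨fun x => if x.val < nvar φ then v x.val else decide (x.val = nvar φ), fun j => ?_⟩
    have hj := List.getElem_mem j.isLt
    set c := (padL φ)[j] with hc
    have hcmem : c ∈ padL φ := hj
    have hred : ∀ x b, redF φ j x = some b ↔ (x.val, b) ∈ c := fun x b => redF_eq φ j x b
    simp only [hred]
    simp only [padL, List.mem_append, List.mem_filter, List.mem_cons, List.mem_map] at hcmem
    rcases hcmem with ⟨h, -⟩ | h | h | ⟨y, -, h⟩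
    · obtain ⟨l, hl, hvl⟩ := hv c h
      have hlt := lt_nvar h hl
      refine ⟨⟨l.1, by omega⟩, ?_⟩
      simp only [hlt, if_true, hvl]
      exact hl
    · refine ⟨⟨nvar φ, by omega⟩, ?_⟩
      rw [h, List.mem_map]
      exact ⟨nvar φ, List.mem_range.2 (by omega), by simp⟩
    · refine ⟨⟨nvar φ + 1, by omega⟩, ?_⟩
      rw [h, List.mem_map]
      exact ⟨nvar φ + 1, List.mem_range.2 (by omega), by simp⟩
    · by_cases hy : y = nvar φ + 1
      · refine ⟨⟨nvar φ + 2, by omega⟩, ?_⟩
        rw [← h, List.mem_map]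
        exact ⟨nvar φ + 2, List.mem_range.2 (by omega), by simp [hy]⟩
      · refine ⟨⟨nvar φ + 1, by omega⟩, ?_⟩
        rw [← h, List.mem_map]
        refine ⟨nvar φ + 1, List.mem_range.2 (by omega), ?_⟩
        simp [Ne.symm hy]

/-- Correctness of the reduction on abstract vertices. -/
theorem inC_redF (φ : TMLib.CNF) : InC (graph (redF φ)) ↔ ¬ Sat φ := by
  have : Nonempty (Fin (padL φ).length) := ⟨(exists_index (mem_pos φ)).choose⟩
  rw [inC_iff _ (linked_redF φ), redF_satisfiable]

/-! ### Numbering the vertices -/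

/-- Vertices as data. -/
def toV {m n : ℕ} : Vert (Fin m) (Fin n) → ℕ × ℕ × Bool
  | .P x => (0, x.val, false)
  | .L x b => (1, x.val, b)
  | .Q x b => (2, x.val, b)
  | .D => (3, 0, false)
  | .c j => (4, j.val, false)

/-- The list of all vertices. -/
def verts (m n : ℕ) : List (ℕ × ℕ × Bool) :=
  ((List.range n).map fun x => (0, x, false)) ++ ((List.range n).map fun x => (1, x, true)) ++
  ((List.range n).map fun x => (1, x, false)) ++ ((List.range n).map fun x => (2, x, true)) ++
  ((List.range n).map fun x => (2, x, false)) ++ [(3, 0, false)] ++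
  ((List.range m).map fun j => (4, j, false))

theorem toV_mem {m n : ℕ} (v : Vert (Fin m) (Fin n)) : toV v ∈ verts m n := by
  simp only [verts, List.mem_append, List.mem_map, List.mem_range]
  cases v with
  | P x => simp [toV]
  | L x b => cases b <;> simp [toV]
  | Q x b => cases b <;> simp [toV]
  | D => simp [toV]
  | c j => simp [toV]

theorem toV_inj {m n : ℕ} : Function.Injective (toV (m := m) (n := n)) := by
  intro u v h
  cases u <;> cases v <;> simp_all [toV, Fin.ext_iff]

theorem toV_surj {m n : ℕ} {w : ℕ × ℕ × Bool} (hw : w ∈ verts m n) :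
    ∃ v : Vert (Fin m) (Fin n), toV v = w := by
  simp only [verts, List.mem_append, List.mem_map, List.mem_range, List.mem_singleton] at hw
  rcases hw with (((((⟨x, hx, rfl⟩ | ⟨x, hx, rfl⟩) | ⟨x, hx, rfl⟩) | ⟨x, hx, rfl⟩) |
    ⟨x, hx, rfl⟩) | rfl) | ⟨x, hx, rfl⟩
  · exact ⟨.P ⟨x, hx⟩, rfl⟩
  · exact ⟨.L ⟨x, hx⟩ true, rfl⟩
  · exact ⟨.L ⟨x, hx⟩ false, rfl⟩
  · exact ⟨.Q ⟨x, hx⟩ true, rfl⟩
  · exact ⟨.Q ⟨x, hx⟩ false, rfl⟩
  · exact ⟨.D, rfl⟩
  · exact ⟨.c ⟨x, hx⟩, rfl⟩

theorem nodup_verts (m n : ℕ) : (verts m n).Nodup := by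
  have key : ∀ (k n : ℕ) (t : ℕ) (b : Bool),
      ((List.range n).map fun x => ((t, x, b) : ℕ × ℕ × Bool)).Nodup := by
    intro k n t b
    refine List.Nodup.map ?_ List.nodup_range
    intro x y h
    simpa using h
  simp only [verts]
  refine List.Nodup.append (List.Nodup.append (List.Nodup.append (List.Nodup.append
    (List.Nodup.append (List.Nodup.append (key 0 _ _ _) (key 0 _ _ _) ?_) (key 0 _ _ _) ?_)
    (key 0 _ _ _) ?_) (key 0 _ _ _) ?_) (List.nodup_singleton _) ?_) (key 0 _ _ _) ?_ <;>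
  · intro a h1 h2
    simp only [List.mem_append, List.mem_map, List.mem_singleton] at h1 h2
    grind

/-- The bijection between abstract vertices and positions in the list. -/
noncomputable def vEquiv (m n : ℕ) : Vert (Fin m) (Fin n) ≃ Fin (verts m n).length := by
  classical
  exact (Equiv.ofBijective (fun v => (⟨toV v, toV_mem v⟩ : {w // w ∈ verts m n})) ⟨by
    intro u v h
    exact toV_inj (congrArg Subtype.val h), by
    rintro ⟨w, hw⟩
    obtain ⟨v, hv⟩ := toV_surj hw
    exact ⟨v, Subtype.ext hv⟩⟩).trans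
    (List.Nodup.getEquiv (verts m n) (nodup_verts m n)).symm

theorem verts_vEquiv {m n : ℕ} (v : Vert (Fin m) (Fin n)) :
    (verts m n)[vEquiv m n v] = toV v := by
  classical
  have h := (List.Nodup.getEquiv (verts m n) (nodup_verts m n)).apply_symm_apply
    ⟨toV v, toV_mem v⟩
  have h2 := congrArg Subtype.val h
  exact h2

end Pool.Agent.Work.MP_563097_lc
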