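import Pool.Agent.Work.MP_563097_lc.Membership

/-!
Correctness of the verifier for the complement of the class `C`.
-/

namespace Pool.Agent.Work.MP_563097_lc

open Pool.Agent.Work TMLib

theorem adjMatrix_length (G : GraphInst) : (adjMatrix G).length = G.1 * G.1 := by
  simp [adjMatrix, List.length_flatten, Function.comp_def]

theorem getElem?_flatten_ofFn {α : Type} {m n : ℕ} (f : Fin m → Fin n → α) (i : Fin m)
    (j : Fin n) :
    (List.ofFn fun i => List.ofFn fun j => f i j).flatten[i.val * n + j.val]? =
      some (f i j) := by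
  induction m with
  | zero => exact i.elim0
  | succ m ih =>
    rw [List.ofFn_succ, List.flatten_cons]
    refine Fin.cases ?_ (fun i => ?_) i
    · rw [List.getElem?_append_left (by simp)]
      simp
    · rw [List.getElem?_append_right (by simp [Nat.succ_mul]; omega)]
      have := ih (fun i => f i.succ) i
      rw [← this]
      congr 1
      simp [Nat.succ_mul]
      omega

theorem ent_adjMatrix {n : ℕ} (G : SimpleGraph (Fin n)) (i j : Fin n) :
    ent (adjMatrix ⟨n, G⟩) n i j = true ↔ G.Adj i j := by
  classical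
  have h := getElem?_flatten_ofFn (fun i j : Fin n => decide (G.Adj i j)) i j
  have h2 : adjMatrix ⟨n, G⟩ = (List.ofFn fun i => List.ofFn fun j =>
      decide (G.Adj i j)).flatten := by
    simp only [adjMatrix]
  rw [ent, h2, List.getD_eq_getElem?_getD, h]
  simp

theorem validB_adjMatrix {n : ℕ} (G : SimpleGraph (Fin n)) :
    validB (adjMatrix ⟨n, G⟩) n = true := by
  simp only [validB, adjMatrix_length, decide_true, Bool.true_and, List.all_eq_true,
    List.mem_range, Bool.and_eq_true, decide_eq_true_eq]
  intro i hi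
  constructor
  · have := (ent_adjMatrix G ⟨i, hi⟩ ⟨i, hi⟩)
    simp only [SimpleGraph.irrefl, iff_false, Bool.not_eq_true] at this
    simp [this]
  · intro j hj
    have h1 := (ent_adjMatrix G ⟨i, hi⟩ ⟨j, hj⟩)
    have h2 := (ent_adjMatrix G ⟨j, hj⟩ ⟨i, hi⟩)
    rw [Bool.eq_iff_iff, h1, h2, SimpleGraph.adj_comm]

/-- A valid matrix is the adjacency matrix of a graph. -/
theorem exists_of_validB {w : List Bool} {n : ℕ} (h : validB w n = true) :
    ∃ G : SimpleGraph (Fin n), adjMatrix ⟨n, G⟩ = w := by
  simp only [validB, List.all_eq_true,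
    List.mem_range, Bool.and_eq_true, decide_eq_true_eq] at h
  obtain ⟨hl, h⟩ := h
  let G : SimpleGraph (Fin n) :=
    { Adj := fun i j => ent w n i j = true
      symm := ⟨fun i j hij => by
        have := (h i.val i.isLt).2 j.val j.isLt
        rw [← this]
        exact hij⟩
      loopless := ⟨fun i hi => by
        have := (h i.val i.isLt).1
        simp [hi] at this⟩ }
  refine ⟨G, ?_⟩
  apply List.ext_getElem?
  intro k
  by_cases hk : k < n * n
  · have hn : 0 < n := by
      rcases Nat.eq_zero_or_pos n with rfl | h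
      · simp at hk
      · exact h
    have hi : k / n < n := Nat.div_lt_of_lt_mul hk
    have hj : k % n < n := Nat.mod_lt _ hn
    have hk2 : k = k / n * n + k % n := by
      rw [Nat.mul_comm]
      exact (Nat.div_add_mod k n).symm
    have h1 := ent_adjMatrix G ⟨k / n, hi⟩ ⟨k % n, hj⟩
    have h2 : ent w n (k / n) (k % n) = ent (adjMatrix ⟨n, G⟩) n (k / n) (k % n) := by
      rw [Bool.eq_iff_iff, h1]
    rw [ent, ent, ← hk2] at h2
    have hk3 : k < w.length := by omega
    have hk4 : k < (adjMatrix ⟨n, G⟩).length := by rw [adjMatrix_length]; exact hk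
    rw [List.getD_eq_getElem?_getD, List.getD_eq_getElem?_getD, List.getElem?_eq_getElem hk3,
      List.getElem?_eq_getElem hk4] at h2
    rw [List.getElem?_eq_getElem hk3, List.getElem?_eq_getElem hk4]
    simpa using h2.symm
  · have hk4 : (adjMatrix ⟨n, G⟩).length ≤ k := by
      have := adjMatrix_length ⟨n, G⟩
      simp only at this
      omega
    rw [List.getElem?_eq_none hk4, List.getElem?_eq_none (by omega)]

section Fixed

variable {n : ℕ} (G : SimpleGraph (Fin n))

theorem confB_iff (i j : Fin n) : confB (adjMatrix ⟨n, G⟩) n i j = true ↔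
    ¬ (G.neighborSet i ∩ G.neighborSet j = ∅) := by
  rw [confB, Bool.not_eq_true', ← Bool.not_eq_true]
  apply not_congr
  simp only [List.all_eq_true, List.mem_range, Bool.not_eq_true', Bool.and_eq_false_iff]
  rw [Set.eq_empty_iff_forall_notMem]
  constructor
  · rintro h ⟨k, hk⟩ ⟨h1, h2⟩
    rw [SimpleGraph.mem_neighborSet, ← ent_adjMatrix] at h1 h2
    rcases h k hk with h | h
    · simp only at h1; rw [h1] at h; simp at h
    · simp only at h2; rw [h2] at h; simp at h
  · intro h k hk
    have h1 := ent_adjMatrix G i ⟨k, hk⟩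
    have h2 := ent_adjMatrix G j ⟨k, hk⟩
    have h3 := h ⟨k, hk⟩
    simp only at h1 h2
    rw [Set.mem_inter_iff, SimpleGraph.mem_neighborSet, SimpleGraph.mem_neighborSet, ← h1, ← h2]
      at h3
    by_contra hc
    apply h3
    simpa using hc

/-- The set coded by a bit string. -/
def setOfS (n : ℕ) (s : List Bool) : Set (Fin n) := {i | s.getD i.val false = true}

theorem packB_iff (s : List Bool) : packB (adjMatrix ⟨n, G⟩) n s = true ↔
    IsOpenPacking G (setOfS n s) := by
  simp only [packB, List.all_eq_true, List.mem_range, IsOpenPacking, setOfS]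
  constructor
  · intro h u hu v hv huv
    have h1 := h u.val u.isLt v.val v.isLt
    simp only [Set.mem_ofPred_eq] at hu hv
    rw [hu, hv] at h1
    have h2 : decide (u.val = v.val) = false := by
      rw [decide_eq_false_iff_not, ← Fin.ext_iff]
      exact huv
    rw [h2] at h1
    by_contra hc
    rw [← confB_iff] at hc
    rw [hc] at h1
    simp at h1
  · intro h i hi j hj
    by_contra hc
    rw [Bool.not_eq_true, Bool.not_eq_false'] at hc
    simp only [Bool.and_eq_true, Bool.not_eq_true', decide_eq_false_iff_not] at hc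
    obtain ⟨⟨⟨h1, h2⟩, h3⟩, h4⟩ := hc
    have h5 := (confB_iff G ⟨i, hi⟩ ⟨j, hj⟩).1 h4
    exact h5 (h ⟨i, hi⟩ h1 ⟨j, hj⟩ h2 (fun h6 => h3 (Fin.ext_iff.1 h6)))

theorem maximal_iff (S : Set (Fin n)) : Maximal (IsOpenPacking G) S ↔
    IsOpenPacking G S ∧ ∀ v, v ∈ S ∨ ∃ i ∈ S, ¬ (G.neighborSet i ∩ G.neighborSet v = ∅) := by
  constructor
  · rintro ⟨h1, h2⟩
    refine ⟨h1, fun v => ?_⟩
    by_contra hc
    push Not at hc
    obtain ⟨hv, hc⟩ := hc
    have h3 : IsOpenPacking G (insert v S) := by
      intro a ha b hb hab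
      rcases Set.mem_insert_iff.1 ha with rfl | ha
      · rcases Set.mem_insert_iff.1 hb with rfl | hb
        · exact absurd rfl hab
        · rw [Set.inter_comm]; exact hc b hb
      · rcases Set.mem_insert_iff.1 hb with hb | hb
        · rw [hb]; exact hc a ha
        · exact h1 a ha b hb hab
    exact hv (h2 h3 (Set.subset_insert _ _) (Set.mem_insert _ _))
  · rintro ⟨h1, h2⟩
    refine ⟨h1, fun T hT hST v hv => ?_⟩
    rcases h2 v with h | ⟨i, hi, h⟩
    · exact h
    · by_contra hv'
      exact h (hT i (hST hi) v hv (fun h => hv' (h ▸ hi)))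

theorem maxB_iff (s : List Bool) : maxB (adjMatrix ⟨n, G⟩) n s = true ↔
    ∀ v, v ∈ setOfS n s ∨ ∃ i ∈ setOfS n s, ¬ (G.neighborSet i ∩ G.neighborSet v = ∅) := by
  simp only [maxB, List.all_eq_true, List.mem_range, Bool.or_eq_true, Bool.not_eq_true']
  constructor
  · intro h v
    rcases h v.val v.isLt with h | h
    · exact Or.inl h
    · right
      rw [← Bool.not_eq_true, List.all_eq_true] at h
      push Not at h
      obtain ⟨i, hi, h⟩ := h
      rw [List.mem_range] at hi
      simp only [Bool.not_eq_true, Bool.not_eq_false', Bool.and_eq_true] at h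
      exact ⟨⟨i, hi⟩, h.1, (confB_iff G ⟨i, hi⟩ v).1 h.2⟩
  · intro h v hv
    rcases h ⟨v, hv⟩ with h | ⟨i, hi, h⟩
    · exact Or.inl h
    · right
      rw [← Bool.not_eq_true, List.all_eq_true]
      push Not
      refine ⟨i.val, List.mem_range.2 i.isLt, ?_⟩
      simp only [Bool.not_eq_true, Bool.not_eq_false', Bool.and_eq_true]
      exact ⟨hi, (confB_iff G i ⟨v, hv⟩).2 h⟩

theorem cntB_eq (n : ℕ) (s : List Bool) : cntB n s = (setOfS n s).ncard := by
  classical
  rw [cntB, Set.ncard_eq_toFinset_card']
  have h1 : ((List.range n).filter fun i => s.getD i false).length =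
      ((Finset.range n).filter fun i => s.getD i false = true).card := by
    rw [Finset.card_def, Finset.filter_val, Finset.range_val, Multiset.range, Multiset.filter_coe,
      Multiset.coe_card]
    simp
  rw [h1, ← Finset.card_map Fin.valEmbedding]
  congr 1
  ext i
  simp only [Finset.mem_filter, Finset.mem_range, Finset.mem_map, Set.mem_toFinset, setOfS,
    Set.mem_ofPred_eq, Fin.valEmbedding_apply]
  constructor
  · rintro ⟨h1, h2⟩
    exact ⟨⟨i, h1⟩, h2, rfl⟩
  · rintro ⟨a, h1, rfl⟩
    exact ⟨a.isLt, h1⟩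

/-- The string coding a set. -/
noncomputable def strOf (S : Set (Fin n)) : List Bool := by
  classical
  exact List.ofFn fun i => decide (i ∈ S)

@[simp] theorem strOf_length (S : Set (Fin n)) : (strOf S).length = n := by
  simp [strOf]

theorem setOfS_strOf (S : Set (Fin n)) (t : List Bool) : setOfS n (strOf S ++ t) = S := by
  ext i
  have : i.val < (strOf S).length := by simp
  simp only [setOfS, Set.mem_ofPred_eq]
  rw [List.getD_append _ _ _ _ this]
  simp [strOf]

theorem setOfS_strOf' (S : Set (Fin n)) : setOfS n (strOf S) = S := by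
  simpa using setOfS_strOf S []

theorem not_inC_iff : ¬ InC G ↔ ∃ S T, Maximal (IsOpenPacking G) S ∧
    Maximal (IsOpenPacking G) T ∧ S.ncard ≠ T.ncard := by
  simp only [InC]
  push Not
  rfl

/-- Correctness of the verifier on adjacency matrices. -/
theorem verB_iff : (∃ u : List Bool, u.length ≤ 2 * (adjMatrix ⟨n, G⟩).length ∧
    verB (adjMatrix ⟨n, G⟩) n u = true) ↔ ¬ InC G := by
  rw [not_inC_iff]
  simp only [verB, validB_adjMatrix, Bool.not_true, Bool.false_or, Bool.and_eq_true, packB_iff,
    maxB_iff, cntB_eq, Bool.not_eq_true', decide_eq_false_iff_not]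
  constructor
  · rintro ⟨u, -, ⟨⟨⟨h1, h2⟩, h3⟩, h4⟩, h5⟩
    exact ⟨_, _, (maximal_iff G _).2 ⟨h1, h2⟩, (maximal_iff G _).2 ⟨h3, h4⟩, h5⟩
  · rintro ⟨S, T, hS, hT, hne⟩
    refine ⟨strOf S ++ strOf T, ?_, ?_⟩
    · rw [adjMatrix_length]
      simp only [List.length_append, strOf_length]
      rcases Nat.eq_zero_or_pos n with rfl | h
      · simp
      · have : n * 1 ≤ n * n := Nat.mul_le_mul_left _ h
        omega
    · have h1 : (strOf S ++ strOf T).drop n = strOf T := by
        rw [List.drop_append_of_le_length (by simp)]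
        rw [List.drop_eq_nil_of_le (by simp)]
        rfl
      rw [h1, setOfS_strOf, setOfS_strOf']
      rw [maximal_iff] at hS hT
      exact ⟨⟨⟨hS, hT.1⟩, hT.2⟩, hne⟩

end Fixed

theorem notMem_langC_iff (w : List Bool) : w ∈ langCᶜ ↔
    ∃ u : List Bool, u.length ≤ 2 * w.length ∧ verB w (sqn w) u = true := by
  by_cases hv : validB w (sqn w) = true
  · obtain ⟨G, hG⟩ := exists_of_validB hv
    have h1 : w ∈ langC ↔ InC G := by
      constructor
      · rintro ⟨⟨n', G'⟩, h1, h2⟩
        have hn : sqn w = n' := sqn_eq (by rw [← h1, adjMatrix_length])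
        by_contra hc
        rw [← verB_iff, hG] at hc
        obtain ⟨u, hu1, hu2⟩ := hc
        have h3 : ¬ InC G' := by
          rw [← verB_iff, h1]
          exact ⟨u, hu1, hn ▸ hu2⟩
        exact h3 h2
      · intro h
        exact ⟨⟨_, G⟩, hG, h⟩
    have h2 := verB_iff G
    rw [hG] at h2
    rw [Set.mem_compl_iff, h1, ← h2]
  · have h1 : w ∉ langC := by
      rintro ⟨⟨n', G'⟩, h1, h2⟩
      have hn : sqn w = n' := sqn_eq (by rw [← h1, adjMatrix_length])
      apply hv
      rw [hn, ← h1]
      exact validB_adjMatrix G'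
    refine ⟨fun _ => ⟨[], by simp, ?_⟩, fun _ => h1⟩
    rw [verB]
    simp [hv]

/-- Splitting the encoding of a pair. -/
theorem PolyF.finVal {N : ℕ} {α : Type} [DE α] {f : α → Fin N} (hf : PolyF f) :
    PolyF (fun a => (f a).val) := by
  refine PolyF.comp (f := fun i : Fin N => i.val) ?_ hf
  exact PolyF.of_G (PolyG.refl _) (fun _ => rfl)

/-- The tags as numbers below four. -/
def e4 : Bool ⊕ Bool ≃ Fin 4 := (Equiv.sumCongr finTwoEquiv.symm finTwoEquiv.symm).trans
  finSumFinEquiv

/-- The first component of a tagged pair. -/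
def fstS (l : List (Fin 4)) : List Bool :=
  (l.filter fun i => decide (i.val < 2)).map fun i => decide (i.val = 1)

/-- The second component of a tagged pair. -/
def sndS (l : List (Fin 4)) : List Bool :=
  (l.filter fun i => decide (2 ≤ i.val)).map fun i => decide (i.val = 3)

theorem fstS_encPair (x : List Bool × List Bool) : fstS ((encPair x).map e4) = x.1 := by
  obtain ⟨w, u⟩ := x
  simp only [fstS, encPair, List.map_append, List.filter_append]
  have h1 : ((w.map Sum.inl).map e4).filter (fun i => decide (i.val < 2)) =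
      (w.map Sum.inl).map e4 := by
    rw [List.filter_eq_self]
    simp only [List.map_map, List.mem_map]
    rintro i ⟨b, -, rfl⟩
    cases b <;> rfl
  have h2 : ((u.map Sum.inr).map e4).filter (fun i => decide (i.val < 2)) = [] := by
    rw [List.filter_eq_nil_iff]
    simp only [List.map_map, List.mem_map]
    rintro i ⟨b, -, rfl⟩
    cases b <;> decide
  rw [h1, h2, List.map_nil, List.append_nil, List.map_map, List.map_map]
  conv_rhs => rw [← List.map_id w]
  apply List.map_congr_left
  intro b _
  cases b <;> rfl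

theorem sndS_encPair (x : List Bool × List Bool) : sndS ((encPair x).map e4) = x.2 := by
  obtain ⟨w, u⟩ := x
  simp only [sndS, encPair, List.map_append, List.filter_append]
  have h1 : ((u.map Sum.inr).map e4).filter (fun i => decide (2 ≤ i.val)) =
      (u.map Sum.inr).map e4 := by
    rw [List.filter_eq_self]
    simp only [List.map_map, List.mem_map]
    rintro i ⟨b, -, rfl⟩
    cases b <;> rfl
  have h2 : ((w.map Sum.inl).map e4).filter (fun i => decide (2 ≤ i.val)) = [] := by
    rw [List.filter_eq_nil_iff]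
    simp only [List.map_map, List.mem_map]
    rintro i ⟨b, -, rfl⟩
    cases b <;> decide
  rw [h1, h2, List.map_nil, List.nil_append, List.map_map, List.map_map]
  conv_rhs => rw [← List.map_id u]
  apply List.map_congr_left
  intro b _
  cases b <;> rfl

@[fun_prop]
theorem PolyF.fstS {α : Type} [DE α] {f : α → List (Fin 4)} (hf : PolyF f) :
    PolyF (fun a => MP_563097_lc.fstS (f a)) := by
  unfold MP_563097_lc.fstS
  refine PolyF.map (l := fun a => (f a).filter fun i => decide (i.val < 2))
    (f := fun _ i => decide (i.val = 1)) (PolyF.filter (l := f)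
      (f := fun _ i => decide (i.val < 2)) hf ?_) ?_
  · exact PolyF.lt (PolyF.finVal (by fun_prop)) (by fun_prop)
  · exact PolyF.natEq (PolyF.finVal (by fun_prop)) (by fun_prop)

@[fun_prop]
theorem PolyF.sndS {α : Type} [DE α] {f : α → List (Fin 4)} (hf : PolyF f) :
    PolyF (fun a => MP_563097_lc.sndS (f a)) := by
  unfold MP_563097_lc.sndS
  refine PolyF.map (l := fun a => (f a).filter fun i => decide (2 ≤ i.val))
    (f := fun _ i => decide (i.val = 3)) (PolyF.filter (l := f)
      (f := fun _ i => decide (2 ≤ i.val)) hf ?_) ?_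
  · exact PolyF.le (by fun_prop) (PolyF.finVal (by fun_prop))
  · exact PolyF.natEq (PolyF.finVal (by fun_prop)) (by fun_prop)

/-- **The class `C` is in coNP.** -/
theorem inCoNP_langC : InCoNP langC := by
  refine ⟨2 * Polynomial.X, fun x => verB x.1 (sqn x.1) x.2, ?_, fun w => ?_⟩
  · refine PolyTime.of_PolyF (A := Bool ⊕ Bool) (B := Bool) (N := 4) (M := 2) e4
      finTwoEquiv.symm (g := fun l => [finTwoEquiv.symm
        (verB (fstS l) (sqn (fstS l)) (sndS l))]) ?_ ?_
    · fun_prop
    · intro x
      rw [fstS_encPair, sndS_encPair]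
      rfl
  · rw [notMem_langC_iff]
    simp

end Pool.Agent.Work.MP_563097_lc
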